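import Pool.Agent.W485.NotAOSD
import Pool.Agent.W485.AD
import Pool.Agent.W460.OVS.Smooth
import Pool.Agent.W641.OvsComplete
import Pool.Agent.W108.OVS.Flex

/-!
There is a flexible smooth affine complex variety with the algebraic density property which does
not have the algebraic overshear density property.
-/

namespace Pool.Agent.Results.MP_591370_ag.FlexibleNotOvershearDense

open Pool.Agent.W485

theorem result : ∃ (X : Type) (_ : CommRing X) (_ : Algebra ℂ X),
    IsDomain X ∧ Algebra.FiniteType ℂ X ∧ Algebra.Smooth ℂ X ∧
      Flexible X ∧ AlgebraicDensity X ∧ ¬ OvershearDensity X := by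
  have hs : Algebra.Smooth ℂ AA := Pool.Agent.W460.OVS.smooth_AA
  refine ⟨AA, inferInstance, inferInstance, inferInstance, ?_, hs,
    Pool.Agent.W108.OVS.flexible_AA, ?_, not_overshearDensity⟩
  · have := hs.finitePresentation
    infer_instance
  · exact algebraicDensity_of
      ⟨fun V hV => Pool.Agent.W485.W641C.overshear_complete V hV,
        fun σ m P h hσ => Pool.Agent.W485.W641C.torus_complete σ m P h hσ⟩

end Pool.Agent.Results.MP_591370_ag.FlexibleNotOvershearDense
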